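import Mathlib

/-!
# Exceptional sets for arbitrary sets of primes: the dual form and the infinite form

`good X L p` is any relation between a scale `X`, a form `L` and a number `p`.  From a bound for the
number of the forms which are good for few elements of an arbitrary set `A` of primes we deduce a
bound for the number of the primes for which few elements of an arbitrary set of forms are good, and
a theorem for fixed infinite sets of primes.
-/

set_option autoImplicit false

namespace Pool.Agent.Y880.AP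

open Finset Filter

open Classical in
/-- The bound for sparse sets of primes. -/
def Sparse {ι : Type} (adm : ℕ → ι → Prop) (good : ℕ → ι → ℕ → Prop) (c C η : ℝ) : Prop :=
  ∀ X : ℕ, 2 ≤ X → ∀ A : Finset ℕ, (∀ p ∈ A, p.Prime ∧ p ≤ X) → (X : ℝ) ^ (1 - η) ≤ A.card →
    ∀ E : Finset ι, (∀ L ∈ E, adm X L ∧ ((A.filter (fun p => good X L p)).card : ℝ) < c * A.card) →
      (E.card : ℝ) ≤ C * (X / (A.card * Real.log X))

open Classical in
/-- double counting -/
lemma pairs {ι : Type} (good : ι → ℕ → Prop) (A : Finset ℕ) (H : Finset ι) (c : ℝ) (hc : 0 < c)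
    (hA : 0 < A.card)
    (h1 : ∀ p ∈ A, ((H.filter (fun L => good L p)).card : ℝ) < c / 2 * H.card) :
    (H.card : ℝ) ≤ 2 * ((H.filter (fun L => ((A.filter (fun p => good L p)).card : ℝ) < c * A.card)).card : ℝ) := by
  set E := H.filter (fun L => ((A.filter (fun p => good L p)).card : ℝ) < c * A.card) with hE
  have hcomm : ∑ L ∈ H, ((A.filter (fun p => good L p)).card : ℝ) =
      ∑ p ∈ A, ((H.filter (fun L => good L p)).card : ℝ) := by
    have := Finset.sum_card_bipartiteAbove_eq_sum_card_bipartiteBelow (s := H) (t := A) (fun L p => good L p)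
    unfold Finset.bipartiteAbove Finset.bipartiteBelow at this
    exact_mod_cast this
  have hup : ∑ p ∈ A, ((H.filter (fun L => good L p)).card : ℝ) ≤ A.card * (c / 2 * H.card) := by
    calc _ ≤ ∑ _p ∈ A, (c / 2 * H.card) := sum_le_sum (fun p hp => (h1 p hp).le)
      _ = _ := by rw [sum_const, nsmul_eq_mul]
  have hlow : ((H.card : ℝ) - E.card) * (c * A.card) ≤ ∑ L ∈ H, ((A.filter (fun p => good L p)).card : ℝ) := by
    have hsub : E ⊆ H := filter_subset _ _
    have h2 : ∑ L ∈ H \ E, (c * A.card) ≤ ∑ L ∈ H \ E, ((A.filter (fun p => good L p)).card : ℝ) := by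
      apply sum_le_sum
      intro L hL
      rw [Finset.mem_sdiff] at hL
      by_contra hlt
      push Not at hlt
      exact hL.2 (by rw [hE, mem_filter]; exact ⟨hL.1, hlt⟩)
    have h3 : ∑ L ∈ H \ E, ((A.filter (fun p => good L p)).card : ℝ) ≤
        ∑ L ∈ H, ((A.filter (fun p => good L p)).card : ℝ) :=
      sum_le_sum_of_subset_of_nonneg sdiff_subset (fun _ _ _ => Nat.cast_nonneg _)
    have h4 : (((H \ E).card : ℕ) : ℝ) = (H.card : ℝ) - E.card := by
      rw [card_sdiff_of_subset hsub, Nat.cast_sub (card_le_card hsub)]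
    rw [sum_const, nsmul_eq_mul, h4] at h2
    exact h2.trans h3
  have hA' : (0 : ℝ) < A.card := by exact_mod_cast hA
  have h5 : ((H.card : ℝ) - E.card) * (c * A.card) ≤ (H.card / 2 : ℝ) * (c * A.card) := by
    calc _ ≤ _ := hlow
      _ = _ := hcomm
      _ ≤ _ := hup
      _ = _ := by ring
  have h6 := le_of_mul_le_mul_right h5 (by positivity)
  linarith

open Classical in
/-- the dual form -/
theorem dual {ι : Type} {adm : ℕ → ι → Prop} {good : ℕ → ι → ℕ → Prop} {c C η : ℝ} (hc : 0 < c)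
    (h : Sparse adm good c C η) (X : ℕ) (hX : 2 ≤ X) (H : Finset ι)
    (hH : ∀ L ∈ H, adm X L) :
    ((((Icc 1 X).filter Nat.Prime).filter
      (fun p => ((H.filter (fun L => good X L p)).card : ℝ) < c / 2 * H.card)).card : ℝ) ≤
      max ((X : ℝ) ^ (1 - η)) (2 * C * (X / (H.card * Real.log X))) := by
  set A := ((Icc 1 X).filter Nat.Prime).filter
      (fun p => ((H.filter (fun L => good X L p)).card : ℝ) < c / 2 * H.card) with hA
  by_cases h1 : (A.card : ℝ) < (X : ℝ) ^ (1 - η)
  · exact h1.le.trans (le_max_left _ _)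
  push Not at h1
  apply le_trans _ (le_max_right _ _)
  have hXpos : (0 : ℝ) < X := by exact_mod_cast (by omega : 0 < X)
  have hApos : (0 : ℝ) < A.card := lt_of_lt_of_le (Real.rpow_pos_of_pos hXpos _) h1
  have hA0 : 0 < A.card := by exact_mod_cast hApos
  obtain ⟨p₀, hp₀⟩ := card_pos.mp hA0
  have hH0 : (0 : ℝ) < H.card := by
    have := (mem_filter.mp hp₀).2
    have h2 : (0 : ℝ) ≤ ((H.filter (fun L => good X L p₀)).card : ℝ) := Nat.cast_nonneg _
    by_contra hcon
    push Not at hcon
    nlinarith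
  have hlog : 0 < Real.log X := Real.log_pos (by exact_mod_cast (by omega : 1 < X))
  have h3 := pairs (good X) A H c hc hA0 (fun p hp => (mem_filter.mp hp).2)
  have h4 := h X hX A (fun p hp => by
    have h5 := (mem_filter.mp hp).1
    rw [mem_filter, mem_Icc] at h5
    exact ⟨h5.2, h5.1.2⟩) h1
    (H.filter (fun L => ((A.filter (fun p => good X L p)).card : ℝ) < c * A.card))
    (fun L hL => ⟨hH L (mem_filter.mp hL).1, (mem_filter.mp hL).2⟩)
  have h5 : (H.card : ℝ) ≤ 2 * (C * (X / (A.card * Real.log X))) := by linarith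
  rw [mul_div_assoc', mul_div_assoc', le_div_iff₀ (by positivity)] at h5
  rw [mul_div_assoc', le_div_iff₀ (by positivity)]
  nlinarith

open Classical in
/-- the infinite form -/
theorem infinite {ι : Type} {adm : ℕ → ι → Prop} {good : ℕ → ι → ℕ → Prop} {c C η : ℝ}
    (hη : 0 < η) (hC : 0 ≤ C) (h : Sparse adm good c C η) (δ : ℝ) (hδ : 0 < δ)
    (P : Set ι) (hP : ∀ L ∈ P, ∀ᶠ X : ℕ in atTop, adm X L) (Q : Set ℕ) (hQ : ∀ q ∈ Q, q.Prime)
    (hd : ∃ᶠ X : ℕ in atTop, δ * (X / Real.log X) ≤ (((Icc 1 X).filter (fun q => q ∈ Q)).card : ℝ)) :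
    {L ∈ P | ¬ ∃ᶠ X : ℕ in atTop, c * (((Icc 1 X).filter (fun q => q ∈ Q)).card : ℝ) ≤
      (((Icc 1 X).filter (fun q => q ∈ Q ∧ good X L q)).card : ℝ)}.encard ≤ (⌊C / δ⌋₊ : ℕ) := by
  set S := {L ∈ P | ¬ ∃ᶠ X : ℕ in atTop, c * (((Icc 1 X).filter (fun q => q ∈ Q)).card : ℝ) ≤
      (((Icc 1 X).filter (fun q => q ∈ Q ∧ good X L q)).card : ℝ)} with hS
  by_contra hcon
  push Not at hcon
  have h1 : ((⌊C / δ⌋₊ + 1 : ℕ) : ℕ∞) ≤ S.encard := by
    rw [Nat.cast_add, Nat.cast_one]
    exact Order.add_one_le_of_lt hcon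
  obtain ⟨T, hTS, hT⟩ := Set.exists_subset_encard_eq h1
  have hTf : T.Finite := Set.finite_of_encard_eq_coe hT
  set F := hTf.toFinset with hF
  have hFc : F.card = ⌊C / δ⌋₊ + 1 := by
    have h2 := hTf.encard_eq_coe_toFinset_card
    rw [hT] at h2
    exact_mod_cast h2.symm
  -- eventually all forms of `F` are admissible and bad
  have hev : ∀ᶠ X : ℕ in atTop, ∀ L ∈ F, adm X L ∧
      ¬ (c * (((Icc 1 X).filter (fun q => q ∈ Q)).card : ℝ) ≤
      (((Icc 1 X).filter (fun q => q ∈ Q ∧ good X L q)).card : ℝ)) := by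
    rw [Filter.eventually_all_finset]
    intro L hL
    have hLS : L ∈ S := hTS (by simpa [hF] using hL)
    rw [hS, Set.mem_ofPred_eq] at hLS
    exact (hP L hLS.1).and (Filter.not_frequently.mp hLS.2)
  have hpow : ∀ᶠ X : ℕ in atTop, (X : ℝ) ^ (1 - η) ≤ δ * (X / Real.log X) := by
    have h2 := (isLittleO_log_rpow_atTop hη).bound hδ
    have h3 := tendsto_natCast_atTop_atTop (R := ℝ) |>.eventually h2
    filter_upwards [h3, eventually_ge_atTop 3] with X hX hX3
    have hXpos : (0 : ℝ) < X := by exact_mod_cast (by omega : 0 < X)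
    have hlog : 0 < Real.log X := Real.log_pos (by exact_mod_cast (by omega : 1 < X))
    rw [Real.norm_of_nonneg hlog.le, Real.norm_of_nonneg (by positivity)] at hX
    rw [mul_div_assoc', le_div_iff₀ hlog, Real.rpow_sub hXpos, Real.rpow_one, div_mul_eq_mul_div,
      div_le_iff₀ (by positivity)]
    nlinarith
  obtain ⟨X, hXd, hXev, hXpow, hX2⟩ := (hd.and_eventually (hev.and (hpow.and (eventually_ge_atTop 2)))).exists
  have hXpos : (0 : ℝ) < X := by exact_mod_cast (by omega : 0 < X)
  have hlog : 0 < Real.log X := Real.log_pos (by exact_mod_cast (by omega : 1 < X))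
  set A := (Icc 1 X).filter (fun q => q ∈ Q) with hA
  have h4 := h X hX2 A (fun p hp => by
    rw [hA, mem_filter, mem_Icc] at hp
    exact ⟨hQ p hp.2, hp.1.2⟩) (hXpow.trans hXd) F (fun L hL => by
    refine ⟨(hXev L hL).1, ?_⟩
    have h5 := (hXev L hL).2
    push Not at h5
    rw [hA, filter_filter]
    exact h5)
  have hA0 : 0 < (A.card : ℝ) := lt_of_lt_of_le (by positivity) hXd
  have h5 : C * (X / (A.card * Real.log X)) ≤ C / δ := by
    rw [div_eq_mul_inv C δ]
    apply mul_le_mul_of_nonneg_left _ hC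
    rw [div_le_iff₀ (by positivity)]
    rw [mul_div_assoc', div_le_iff₀ hlog] at hXd
    rw [← div_eq_inv_mul, le_div_iff₀ hδ]
    linarith
  have h6 : (F.card : ℝ) ≤ C / δ := h4.trans h5
  rw [hFc] at h6
  have h7 := Nat.lt_floor_add_one (C / δ)
  push_cast at h6
  linarith

end Pool.Agent.Y880.AP
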