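import Pool.Agent.Y880.AP.Core

/-!
# Exceptional sets for dense sets of primes: the dual form and the infinite form
-/

set_option autoImplicit false

namespace Pool.Agent.Y880.AP

open Finset Filter

open Classical in
/-- The bound for dense sets of primes. -/
def Dense {ι : Type} (adm : ℕ → ι → Prop) (good : ℕ → ι → ℕ → Prop) (δ c : ℝ) (K : ℕ) : Prop :=
  ∀ X : ℕ, 2 ≤ X → ∀ A : Finset ℕ, (∀ p ∈ A, p.Prime ∧ p ≤ X) → δ * (X / Real.log X) ≤ A.card →
    ∀ E : Finset ι, (∀ L ∈ E, adm X L ∧ ((A.filter (fun p => good X L p)).card : ℝ) < c * A.card) →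
      E.card ≤ K

open Classical in
/-- the dual form -/
theorem dualD {ι : Type} {adm : ℕ → ι → Prop} {good : ℕ → ι → ℕ → Prop} {δ c : ℝ} {K : ℕ}
    (hδ : 0 < δ) (hc : 0 < c) (h : Dense adm good δ c K) (X : ℕ) (hX : 2 ≤ X) (H : Finset ι)
    (hH : ∀ L ∈ H, adm X L) (hK : 2 * K < H.card) :
    ((((Icc 1 X).filter Nat.Prime).filter
      (fun p => ((H.filter (fun L => good X L p)).card : ℝ) < c / 2 * H.card)).card : ℝ) <
      δ * (X / Real.log X) := by
  set A := ((Icc 1 X).filter Nat.Prime).filter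
      (fun p => ((H.filter (fun L => good X L p)).card : ℝ) < c / 2 * H.card) with hA
  by_contra h1
  push Not at h1
  have hXpos : (0 : ℝ) < X := by exact_mod_cast (by omega : 0 < X)
  have hlog : 0 < Real.log X := Real.log_pos (by exact_mod_cast (by omega : 1 < X))
  have hApos : (0 : ℝ) < A.card := lt_of_lt_of_le (by positivity) h1
  have hA0 : 0 < A.card := by exact_mod_cast hApos
  have h3 := pairs (good X) A H c hc hA0 (fun p hp => (mem_filter.mp hp).2)
  have h4 := h X hX A (fun p hp => by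
    have h5 := (mem_filter.mp hp).1
    rw [mem_filter, mem_Icc] at h5
    exact ⟨h5.2, h5.1.2⟩) h1
    (H.filter (fun L => ((A.filter (fun p => good X L p)).card : ℝ) < c * A.card))
    (fun L hL => ⟨hH L (mem_filter.mp hL).1, (mem_filter.mp hL).2⟩)
  have h5 : H.card ≤ 2 * (H.filter (fun L => ((A.filter (fun p => good X L p)).card : ℝ) < c * A.card)).card := by
    exact_mod_cast h3
  omega

open Classical in
/-- the infinite form -/
theorem infiniteD {ι : Type} {adm : ℕ → ι → Prop} {good : ℕ → ι → ℕ → Prop} {δ c : ℝ} {K : ℕ}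
    (h : Dense adm good δ c K)
    (P : Set ι) (hP : ∀ L ∈ P, ∀ᶠ X : ℕ in atTop, adm X L) (Q : Set ℕ) (hQ : ∀ q ∈ Q, q.Prime)
    (hd : ∃ᶠ X : ℕ in atTop, δ * (X / Real.log X) ≤ (((Icc 1 X).filter (fun q => q ∈ Q)).card : ℝ)) :
    {L ∈ P | ¬ ∃ᶠ X : ℕ in atTop, c * (((Icc 1 X).filter (fun q => q ∈ Q)).card : ℝ) ≤
      (((Icc 1 X).filter (fun q => q ∈ Q ∧ good X L q)).card : ℝ)}.encard ≤ K := by
  set S := {L ∈ P | ¬ ∃ᶠ X : ℕ in atTop, c * (((Icc 1 X).filter (fun q => q ∈ Q)).card : ℝ) ≤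
      (((Icc 1 X).filter (fun q => q ∈ Q ∧ good X L q)).card : ℝ)} with hS
  by_contra hcon
  push Not at hcon
  have h1 : ((K + 1 : ℕ) : ℕ∞) ≤ S.encard := by
    rw [Nat.cast_add, Nat.cast_one]
    exact Order.add_one_le_of_lt hcon
  obtain ⟨T, hTS, hT⟩ := Set.exists_subset_encard_eq h1
  have hTf : T.Finite := Set.finite_of_encard_eq_coe hT
  set F := hTf.toFinset with hF
  have hFc : F.card = K + 1 := by
    have h2 := hTf.encard_eq_coe_toFinset_card
    rw [hT] at h2
    exact_mod_cast h2.symm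
  have hev : ∀ᶠ X : ℕ in atTop, ∀ L ∈ F, adm X L ∧
      ¬ (c * (((Icc 1 X).filter (fun q => q ∈ Q)).card : ℝ) ≤
      (((Icc 1 X).filter (fun q => q ∈ Q ∧ good X L q)).card : ℝ)) := by
    rw [Filter.eventually_all_finset]
    intro L hL
    have hLS : L ∈ S := hTS (by simpa [hF] using hL)
    rw [hS, Set.mem_ofPred_eq] at hLS
    exact (hP L hLS.1).and (Filter.not_frequently.mp hLS.2)
  obtain ⟨X, hXd, hXev, hX2⟩ := (hd.and_eventually (hev.and (eventually_ge_atTop 2))).exists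
  set A := (Icc 1 X).filter (fun q => q ∈ Q) with hA
  have h4 := h X hX2 A (fun p hp => by
    rw [hA, mem_filter, mem_Icc] at hp
    exact ⟨hQ p hp.2, hp.1.2⟩) hXd F (fun L hL => by
    refine ⟨(hXev L hL).1, ?_⟩
    have h5 := (hXev L hL).2
    push Not at h5
    rw [hA, filter_filter]
    exact h5)
  omega

end Pool.Agent.Y880.AP

namespace Pool.Agent.Y880.AP

open Finset Filter

open Classical in
theorem Sparse.mono {ι : Type} {adm : ℕ → ι → Prop} {good : ℕ → ι → ℕ → Prop} {c C η c' C' : ℝ}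
    (h : Sparse adm good c C η) (hc : c' ≤ c) (hC : C ≤ C') : Sparse adm good c' C' η := by
  intro X hX A hA hAc E hE
  have hXpos : (0 : ℝ) < X := by exact_mod_cast (by omega : 0 < X)
  have hlog : 0 < Real.log X := Real.log_pos (by exact_mod_cast (by omega : 1 < X))
  have hApos : (0 : ℝ) < A.card := lt_of_lt_of_le (Real.rpow_pos_of_pos hXpos _) hAc
  refine (h X hX A hA hAc E fun L hL => ⟨(hE L hL).1, (hE L hL).2.trans_le ?_⟩).trans ?_
  · exact mul_le_mul_of_nonneg_right hc hApos.le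
  · exact mul_le_mul_of_nonneg_right hC (by positivity)

open Classical in
/-- all three forms with the same constants -/
theorem all_forms {ι : Type} {adm : ℕ → ι → Prop} {good : ℕ → ι → ℕ → Prop} {c C η : ℝ}
    (hc : 0 < c) (hη : 0 < η) (h : Sparse adm good c C η)
    (P : Set ι) (hP : ∀ L ∈ P, ∀ᶠ X : ℕ in atTop, adm X L) :
    ∃ c' C' η' : ℝ, 0 < c' ∧ 0 < C' ∧ 0 < η' ∧ Sparse adm good c' C' η' ∧
      (∀ X : ℕ, 2 ≤ X → ∀ H : Finset ι, (∀ L ∈ H, adm X L) →
        ((((Icc 1 X).filter Nat.Prime).filter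
          (fun p => ((H.filter (fun L => good X L p)).card : ℝ) < c' * H.card)).card : ℝ) ≤
          max ((X : ℝ) ^ (1 - η')) (C' * (X / (H.card * Real.log X)))) ∧
      (∀ δ : ℝ, 0 < δ → ∀ Q : Set ℕ, (∀ q ∈ Q, q.Prime) →
        (∃ᶠ X : ℕ in atTop, δ * (X / Real.log X) ≤ (((Icc 1 X).filter (fun q => q ∈ Q)).card : ℝ)) →
        {L ∈ P | ¬ ∃ᶠ X : ℕ in atTop, c' * (((Icc 1 X).filter (fun q => q ∈ Q)).card : ℝ) ≤
          (((Icc 1 X).filter (fun q => q ∈ Q ∧ good X L q)).card : ℝ)}.encard ≤ (⌊C' / δ⌋₊ : ℕ)) := by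
  have h1 : Sparse adm good c (max C 1) η := h.mono le_rfl (le_max_left _ _)
  have h2 : Sparse adm good (c / 2) (2 * max C 1) η :=
    h1.mono (by linarith) (by have : (0 : ℝ) < max C 1 := by positivity
                              linarith)
  refine ⟨c / 2, 2 * max C 1, η, by positivity, by positivity, hη, h2, ?_, ?_⟩
  · intro X hX H hH
    exact dual hc h1 X hX H hH
  · intro δ hδ Q hQ hd
    exact infinite hη (by positivity) h2 δ hδ P hP Q hQ hd

end Pool.Agent.Y880.AP
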