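import Pool.Agent.Y880.AP.CoreD
import Pool.Agent.W23.DC.All

/-!
# Dense sets of primes and almost primes at given distances
-/

set_option autoImplicit false

namespace Pool.Agent.Y880.AP

open Finset Filter

/-- `n ≠ 0` and `|n| = m s` with `m ≤ y` and a product `s > 1` of at most two primes, both greater
than `z` -/
def NP (y z : ℝ) (n : ℤ) : Prop :=
  n ≠ 0 ∧ ∃ m s : ℕ, n.natAbs = m * s ∧ (m : ℝ) ≤ y ∧ 1 < s ∧ s.primeFactorsList.length ≤ 2 ∧
    ∀ q ∈ s.primeFactors, z < (q : ℝ)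

/-- the shifts in a box -/
def boxD (X : ℕ) (N : ℤ) : Prop := |N| ≤ 2 * (X : ℤ)

/-- the good primes of a shift -/
def goodD (ε : ℝ) (X : ℕ) (N : ℤ) (p : ℕ) : Prop :=
  NP ((X : ℝ) ^ ε) ((X : ℝ) ^ (1 / 7 : ℝ)) (p + N)

theorem big_div_log (M : ℝ) : ∃ X₀ : ℕ, ∀ X : ℕ, X₀ ≤ X → M ≤ X / Real.log X := by
  have h1 : Tendsto (fun x : ℝ => Real.log x / x) atTop (nhds 0) := by
    have := Real.isLittleO_log_id_atTop.tendsto_div_nhds_zero
    simpa using this
  have h2 : ∀ᶠ x : ℝ in atTop, Real.log x / x < 1 / (|M| + 1) :=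
    h1.eventually (gt_mem_nhds (by positivity))
  obtain ⟨X₀, hX₀⟩ := ((tendsto_natCast_atTop_atTop (R := ℝ)).eventually
    (h2.and (eventually_gt_atTop 1))).exists_forall_of_atTop
  refine ⟨X₀, fun X hX => ?_⟩
  obtain ⟨h3, h4⟩ := hX₀ X hX
  have hlog : 0 < Real.log X := Real.log_pos h4
  have hXpos : (0 : ℝ) < X := by linarith
  rw [div_lt_div_iff₀ hXpos (by positivity), one_mul] at h3
  rw [le_div_iff₀ hlog]
  have := le_abs_self M
  nlinarith

theorem denseD (δ ε : ℝ) (hδ : 0 < δ) (hε : 0 < ε) : ∃ (c : ℝ) (K : ℕ), 0 < c ∧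
    Dense boxD (goodD ε) δ c K := by
  classical
  obtain ⟨c, K, hc, h⟩ := Pool.Agent.W23.DC.dense_almost_prime δ ε hδ hε
  obtain ⟨X₀, hX₀⟩ := big_div_log (2 / c / δ)
  refine ⟨c / 2, K + (4 * X₀ + 1), by positivity, fun X hX A hA hAc E hE => ?_⟩
  rcases lt_or_ge X X₀ with hlt | hge
  · have h1 : E ⊆ Icc (-(2 * X : ℤ)) (2 * X) := fun N hN => by
      have h1 := (hE N hN).1
      unfold boxD at h1
      rw [abs_le] at h1
      rw [mem_Icc]
      exact h1
    have h2 := card_le_card h1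
    rw [Int.card_Icc] at h2
    omega
  have hbig : 2 / c ≤ (A.card : ℝ) := by
    refine le_trans ?_ hAc
    have := hX₀ X hge
    rw [div_le_iff₀ hδ] at this
    linarith
  have hbig2 : c / 2 * A.card + 1 ≤ c * A.card := by
    rw [div_le_iff₀ hc] at hbig
    nlinarith
  refine le_trans (le_trans ?_ (h X hX A hA (by rw [mul_div_assoc]; exact hAc))) (by omega)
  rw [← card_image_of_injective E (neg_injective (G := ℤ))]
  refine card_le_card (fun N hN => ?_)
  rw [mem_image] at hN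
  obtain ⟨M, hM, rfl⟩ := hN
  obtain ⟨h1, h3⟩ := hE M hM
  unfold boxD at h1
  rw [abs_le] at h1
  rw [mem_filter, mem_Icc]
  refine ⟨⟨by omega, by omega⟩, lt_of_le_of_lt ?_ (lt_of_lt_of_le (add_lt_add_left h3 1) hbig2)⟩
  have h10 : (A.filter (fun p : ℕ => ∃ m s : ℕ, (-M - p).natAbs = m * s ∧ (m : ℝ) ≤ (X : ℝ) ^ ε ∧ 1 < s ∧
          s.primeFactorsList.length ≤ 2 ∧
          ∀ q ∈ s.primeFactors, (X : ℝ) ^ (1 / 7 : ℝ) < q)) ⊆
      (A.filter (fun p => goodD ε X M p)) ∪ {(-M).natAbs} := by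
    intro p hp
    rw [mem_filter] at hp
    rw [mem_union, mem_filter, mem_singleton]
    obtain ⟨h4, m, s, h6, h7⟩ := hp
    by_cases h0 : (p : ℤ) + M = 0
    · right
      omega
    · left
      refine ⟨h4, h0, m, s, ?_, h7⟩
      rw [← h6]
      omega
  have h11 := (card_le_card h10).trans (card_union_le _ _)
  rw [card_singleton] at h11
  exact_mod_cast h11

open Classical in
/-- all three forms with the same constants -/
theorem all_formsD {ι : Type} {adm : ℕ → ι → Prop} {good : ℕ → ι → ℕ → Prop} {δ c : ℝ} {K : ℕ}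
    (hδ : 0 < δ) (hc : 0 < c) (h : Dense adm good δ c K)
    (P : Set ι) (hP : ∀ L ∈ P, ∀ᶠ X : ℕ in atTop, adm X L) :
    ∃ (c' : ℝ) (K' : ℕ), 0 < c' ∧ Dense adm good δ c' K' ∧
      (∀ X : ℕ, 2 ≤ X → ∀ H : Finset ι, (∀ L ∈ H, adm X L) → K' < H.card →
        ((((Icc 1 X).filter Nat.Prime).filter
          (fun p => ((H.filter (fun L => good X L p)).card : ℝ) < c' * H.card)).card : ℝ) <
          δ * (X / Real.log X)) ∧
      (∀ Q : Set ℕ, (∀ q ∈ Q, q.Prime) →
        (∃ᶠ X : ℕ in atTop, δ * (X / Real.log X) ≤ (((Icc 1 X).filter (fun q => q ∈ Q)).card : ℝ)) →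
        {L ∈ P | ¬ ∃ᶠ X : ℕ in atTop, c' * (((Icc 1 X).filter (fun q => q ∈ Q)).card : ℝ) ≤
          (((Icc 1 X).filter (fun q => q ∈ Q ∧ good X L q)).card : ℝ)}.encard ≤ K') := by
  have h2 : Dense adm good δ (c / 2) (2 * K) := by
    intro X hX A hA hAc E hE
    refine (h X hX A hA hAc E fun L hL => ⟨(hE L hL).1, (hE L hL).2.trans_le ?_⟩).trans (by omega)
    exact mul_le_mul_of_nonneg_right (by linarith) (Nat.cast_nonneg _)
  refine ⟨c / 2, 2 * K, by positivity, h2, ?_, ?_⟩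
  · intro X hX H hH hK
    exact dualD hδ hc h X hX H hH hK
  · intro Q hQ hd
    exact infiniteD h2 P hP Q hQ hd

end Pool.Agent.Y880.AP

namespace Pool.Agent.Y880.AP

open Finset Filter

theorem boxD_eventually (N : ℤ) : ∀ᶠ X : ℕ in atTop, boxD X N := by
  filter_upwards [eventually_ge_atTop N.natAbs] with X hX
  unfold boxD
  rw [abs_le]
  omega

end Pool.Agent.Y880.AP
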