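import Pool.Agent.Y880.AP.Lin
import Pool.Agent.Y880.AP.Den

/-!
# The number of good pairs
-/

set_option autoImplicit false

namespace Pool.Agent.Y880.AP

open Finset Filter

open Classical in
/-- double counting: few exceptional forms give many good pairs -/
lemma many_pairs {ι : Type} (good : ι → ℕ → Prop) (A : Finset ℕ) (H : Finset ι) (c : ℝ) (hc : 0 ≤ c)
    (h : 2 * ((H.filter (fun L => ((A.filter (fun p => good L p)).card : ℝ) < c * A.card)).card : ℝ) ≤
      H.card) :
    c / 2 * (A.card * H.card) ≤ (((A ×ˢ H).filter (fun z => good z.2 z.1)).card : ℝ) := by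
  set E := H.filter (fun L => ((A.filter (fun p => good L p)).card : ℝ) < c * A.card) with hE
  have hcount : (((A ×ˢ H).filter (fun z => good z.2 z.1)).card : ℝ) =
      ∑ L ∈ H, ((A.filter (fun p => good L p)).card : ℝ) := by
    rw [← Nat.cast_sum]
    congr 1
    rw [card_filter, sum_product_right]
    exact sum_congr rfl fun L _ => by rw [card_filter]
  rw [hcount]
  have hsub : E ⊆ H := filter_subset _ _
  have h2 : ∑ L ∈ H \ E, (c * A.card) ≤ ∑ L ∈ H \ E, ((A.filter (fun p => good L p)).card : ℝ) := by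
    apply sum_le_sum
    intro L hL
    rw [Finset.mem_sdiff] at hL
    by_contra hlt
    push Not at hlt
    exact hL.2 (by rw [hE, mem_filter]; exact ⟨hL.1, hlt⟩)
  have h3 : ∑ L ∈ H \ E, ((A.filter (fun p => good L p)).card : ℝ) ≤
      ∑ L ∈ H, ((A.filter (fun p => good L p)).card : ℝ) :=
    sum_le_sum_of_subset_of_nonneg sdiff_subset (fun _ _ _ => Nat.cast_nonneg _)
  have h4 : (((H \ E).card : ℕ) : ℝ) = (H.card : ℝ) - E.card := by
    rw [card_sdiff_of_subset hsub, Nat.cast_sub (card_le_card hsub)]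
  rw [sum_const, nsmul_eq_mul, h4] at h2
  refine le_trans ?_ (h2.trans h3)
  have h5 : (H.card : ℝ) / 2 ≤ (H.card : ℝ) - E.card := by linarith
  calc c / 2 * (A.card * H.card) = (H.card / 2 : ℝ) * (c * A.card) := by ring
    _ ≤ _ := mul_le_mul_of_nonneg_right h5 (by positivity)

open Classical in
theorem incid {ι : Type} {adm : ℕ → ι → Prop} {good : ℕ → ι → ℕ → Prop} {c C η : ℝ}
    (hc : 0 < c) (hη : 0 < η) (h : Sparse adm good c C η) :
    ∃ c' C' η' : ℝ, 0 < c' ∧ 0 < C' ∧ 0 < η' ∧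
      ∀ X : ℕ, 2 ≤ X → ∀ A : Finset ℕ, (∀ p ∈ A, p.Prime ∧ p ≤ X) → (X : ℝ) ^ (1 - η') ≤ A.card →
      ∀ H : Finset ι, (∀ L ∈ H, adm X L) → C' * (X / Real.log X) ≤ A.card * H.card →
      c' * (A.card * H.card) ≤ (((A ×ˢ H).filter (fun z => good X z.2 z.1)).card : ℝ) := by
  have h1 : Sparse adm good c (max C 1) η := h.mono le_rfl (le_max_left _ _)
  refine ⟨c / 2, 2 * max C 1, η, by positivity, by positivity, hη, fun X hX A hA hAc H hH hprod => ?_⟩
  apply many_pairs (good X) A H c hc.le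
  have hXpos : (0 : ℝ) < X := by exact_mod_cast (by omega : 0 < X)
  have hlog : 0 < Real.log X := Real.log_pos (by exact_mod_cast (by omega : 1 < X))
  have hApos : (0 : ℝ) < A.card := lt_of_lt_of_le (Real.rpow_pos_of_pos hXpos _) hAc
  have h4 := h1 X hX A hA hAc
    (H.filter (fun L => ((A.filter (fun p => good X L p)).card : ℝ) < c * A.card))
    (fun L hL => ⟨hH L (mem_filter.mp hL).1, (mem_filter.mp hL).2⟩)
  rw [mul_div_assoc', le_div_iff₀ (by positivity)] at h4
  rw [mul_div_assoc', div_le_iff₀ hlog] at hprod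
  have h5 : 2 * ((H.filter (fun L => ((A.filter (fun p => good X L p)).card : ℝ) < c * A.card)).card : ℝ) *
      (A.card * Real.log X) ≤ H.card * (A.card * Real.log X) := by nlinarith
  exact le_of_mul_le_mul_right h5 (by positivity)

open Classical in
theorem incidD {ι : Type} {adm : ℕ → ι → Prop} {good : ℕ → ι → ℕ → Prop} {δ c : ℝ} {K : ℕ}
    (hc : 0 < c) (h : Dense adm good δ c K) :
    ∃ (c' : ℝ) (K' : ℕ), 0 < c' ∧
      ∀ X : ℕ, 2 ≤ X → ∀ A : Finset ℕ, (∀ p ∈ A, p.Prime ∧ p ≤ X) → δ * (X / Real.log X) ≤ A.card →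
      ∀ H : Finset ι, (∀ L ∈ H, adm X L) → K' ≤ H.card →
      c' * (A.card * H.card) ≤ (((A ×ˢ H).filter (fun z => good X z.2 z.1)).card : ℝ) := by
  refine ⟨c / 2, 2 * K, by positivity, fun X hX A hA hAc H hH hK => ?_⟩
  apply many_pairs (good X) A H c hc.le
  have h4 := h X hX A hA hAc
    (H.filter (fun L => ((A.filter (fun p => good X L p)).card : ℝ) < c * A.card))
    (fun L hL => ⟨hH L (mem_filter.mp hL).1, (mem_filter.mp hL).2⟩)
  exact_mod_cast (by omega : 2 * (H.filter
    (fun L => ((A.filter (fun p => good X L p)).card : ℝ) < c * A.card)).card ≤ H.card)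

end Pool.Agent.Y880.AP
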