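import Pool.Agent.Y880.AP.CoreD
import Pool.Agent.W23.SG.All

/-!
# Arbitrary sets of primes and almost prime values of linear forms
-/

set_option autoImplicit false

namespace Pool.Agent.Y880.AP

open Finset Filter

/-- the box of the linear forms `a + d q` -/
def boxL (X : ℕ) (L : ℤ × ℕ) : Prop :=
  Int.gcd L.1 L.2 = 1 ∧ |(L.1 : ℝ)| ≤ (X : ℝ) ^ (4 / 3 : ℝ) ∧ 1 ≤ L.2 ∧ (L.2 : ℝ) ≤ (X : ℝ) ^ (1 / 3 : ℝ)

/-- a smooth part times at most `k` primes -/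
def MP (k : ℕ) (y z : ℝ) (n : ℤ) : Prop :=
  n ≠ 0 ∧ ∃ m s : ℕ, n.natAbs = m * s ∧ (∀ l : ℕ, l.Prime → l ∣ m → (l : ℝ) < y) ∧
    s.primeFactorsList.length ≤ k ∧ ∀ l ∈ s.primeFactors, z ≤ (l : ℝ)

/-- the good primes of a linear form -/
def goodL (ε : ℝ) (X : ℕ) (L : ℤ × ℕ) (q : ℕ) : Prop :=
  MP 3 ((X : ℝ) ^ ε) ((X : ℝ) ^ (1 / 8 : ℝ)) (L.1 + L.2 * q)

theorem sparseL (ε : ℝ) (hε : 0 < ε) : ∃ c C η : ℝ, 0 < c ∧ 0 < η ∧ Sparse boxL (goodL ε) c C η := by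
  classical
  obtain ⟨c, C, η, hc, hη, h⟩ := Pool.Agent.W23.SG.linear_forms ε hε
  refine ⟨c, C, η, hc, hη, fun X hX A hA hAc E hE => h X hX A hA hAc E fun L hL => ?_⟩
  obtain ⟨⟨h1, h2, h3, h4⟩, h5⟩ := hE L hL
  refine ⟨h1, h2, h3, h4, ?_⟩
  refine lt_of_le_of_lt ?_ h5
  exact_mod_cast card_le_card (fun q hq => by
    rw [mem_filter] at hq ⊢
    exact ⟨hq.1, hq.2.1, hq.2.2⟩)

/-- the shifts in a box -/
def boxS (X : ℕ) (N : ℤ) : Prop := -(2 * X : ℤ) ≤ N ∧ N ≤ 2 * X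

/-- the good primes of a shift -/
def goodS (ε : ℝ) (X : ℕ) (N : ℤ) (p : ℕ) : Prop :=
  MP 2 ((X : ℝ) ^ ε) ((X : ℝ) ^ (1 / 7 : ℝ)) (N - p)

theorem sparseS (ε : ℝ) (hε : 0 < ε) : ∃ c C η : ℝ, 0 < c ∧ 0 < η ∧ Sparse boxS (goodS ε) c C η := by
  classical
  obtain ⟨c, C, η, hc, hη, h⟩ := Pool.Agent.W23.SG.sparse_sets ε hε
  refine ⟨c, C, η, hc, hη, fun X hX A hA hAc E hE => le_trans ?_ (h X hX A hA hAc)⟩
  exact_mod_cast card_le_card (fun N hN => by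
    obtain ⟨⟨h1, h2⟩, h3⟩ := hE N hN
    rw [mem_filter, mem_Icc]
    refine ⟨⟨h1, h2⟩, lt_of_le_of_lt ?_ h3⟩
    exact_mod_cast card_le_card (fun p hp => by
      rw [mem_filter] at hp ⊢
      obtain ⟨h4, h5, m, s, h6, h7, h8, h9⟩ := hp
      exact ⟨h4, fun h10 => h5 (by omega), m, s, h6, h7, h8, fun q hq => (h9 q hq).le⟩))

end Pool.Agent.Y880.AP

namespace Pool.Agent.Y880.AP

open Finset Filter

theorem boxL_eventually : ∀ L ∈ {L : ℤ × ℕ | Int.gcd L.1 L.2 = 1 ∧ 1 ≤ L.2},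
    ∀ᶠ X : ℕ in atTop, boxL X L := by
  intro L hL
  have h1 : Tendsto (fun X : ℕ => (X : ℝ) ^ (4 / 3 : ℝ)) atTop atTop :=
    (tendsto_rpow_atTop (by norm_num)).comp tendsto_natCast_atTop_atTop
  have h2 : Tendsto (fun X : ℕ => (X : ℝ) ^ (1 / 3 : ℝ)) atTop atTop :=
    (tendsto_rpow_atTop (by norm_num)).comp tendsto_natCast_atTop_atTop
  filter_upwards [h1.eventually_ge_atTop |(L.1 : ℝ)|, h2.eventually_ge_atTop (L.2 : ℝ)] with X h3 h4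
  exact ⟨hL.1, h3, hL.2, h4⟩

theorem boxS_eventually (N : ℤ) : ∀ᶠ X : ℕ in atTop, boxS X N := by
  filter_upwards [eventually_ge_atTop N.natAbs] with X hX
  unfold boxS
  omega

end Pool.Agent.Y880.AP
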