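import Pool.Agent.Y880.AP.Inc

/-!
# From many good pairs to many good tuples
-/

set_option autoImplicit false

namespace Pool.Agent.Y880.AP

open Finset

open Classical in
/-- tuples with two equal entries -/
lemma card_noninj {ι : Type} (k : ℕ) (H : Finset ι) :
    ((Fintype.piFinset (fun _ : Fin k => H)).filter (fun h => ¬ Function.Injective h)).card * H.card ≤
      k ^ 2 * H.card ^ k := by
  have h1 : (Fintype.piFinset (fun _ : Fin k => H)).filter (fun h => ¬ Function.Injective h) ⊆
      (univ : Finset (Fin k × Fin k)).biUnion (fun z =>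
        (Fintype.piFinset (fun _ : Fin k => H)).filter (fun h => z.1 ≠ z.2 ∧ h z.1 = h z.2)) := by
    intro h hh
    rw [mem_filter] at hh
    obtain ⟨h2, h3⟩ := hh
    unfold Function.Injective at h3
    push Not at h3
    obtain ⟨i, j, h4, h5⟩ := h3
    rw [mem_biUnion]
    exact ⟨(i, j), mem_univ _, mem_filter.mpr ⟨h2, h5, h4⟩⟩
  have h2 : ∀ z : Fin k × Fin k, ((Fintype.piFinset (fun _ : Fin k => H)).filter
      (fun h => z.1 ≠ z.2 ∧ h z.1 = h z.2)).card * H.card ≤ H.card ^ k := by
    intro z
    rw [← card_product]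
    have h3 : (Fintype.piFinset (fun _ : Fin k => H)).card = H.card ^ k := by
      rw [Fintype.card_piFinset, prod_const, card_univ, Fintype.card_fin]
    rw [← h3]
    apply card_le_card_of_injOn (fun w => Function.update w.1 z.2 w.2)
    · rintro ⟨h, x⟩ hw
      simp only [coe_product, Set.mem_prod, mem_coe, mem_filter, Fintype.mem_piFinset] at hw ⊢
      intro i
      by_cases hi : i = z.2
      · subst hi
        rw [Function.update_self]
        exact hw.2
      · rw [Function.update_of_ne hi]
        exact hw.1.1 i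
    · rintro ⟨h, x⟩ hw ⟨h', x'⟩ hw' heq
      simp only [coe_product, Set.mem_prod, mem_coe, mem_filter, Fintype.mem_piFinset] at hw hw' heq
      have hx : x = x' := by
        have := congrFun heq z.2
        simpa using this
      have hh : h = h' := by
        funext i
        by_cases hi : i = z.2
        · subst hi
          have h5 := congrFun heq z.1
          rw [Function.update_of_ne hw.1.2.1, Function.update_of_ne hw.1.2.1] at h5
          rw [← hw.1.2.2, ← hw'.1.2.2, h5]
        · have h5 := congrFun heq i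
          rwa [Function.update_of_ne hi, Function.update_of_ne hi] at h5
      rw [hx, hh]
  calc ((Fintype.piFinset (fun _ : Fin k => H)).filter (fun h => ¬ Function.Injective h)).card * H.card
      ≤ (∑ z : Fin k × Fin k, ((Fintype.piFinset (fun _ : Fin k => H)).filter
          (fun h => z.1 ≠ z.2 ∧ h z.1 = h z.2)).card) * H.card :=
        Nat.mul_le_mul_right _ ((card_le_card h1).trans card_biUnion_le)
    _ = ∑ z : Fin k × Fin k, ((Fintype.piFinset (fun _ : Fin k => H)).filter
          (fun h => z.1 ≠ z.2 ∧ h z.1 = h z.2)).card * H.card := by rw [sum_mul]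
    _ ≤ ∑ _z : Fin k × Fin k, H.card ^ k := sum_le_sum fun z _ => h2 z
    _ = k ^ 2 * H.card ^ k := by
        rw [sum_const, card_univ, Fintype.card_prod, Fintype.card_fin, smul_eq_mul, sq]

open Classical in
/-- the moments of the number of good partners -/
lemma sum_pow {ι : Type} (good : ι → ℕ → Prop) (A : Finset ℕ) (H : Finset ι) (k : ℕ) :
    ∑ p ∈ A, ((H.filter (fun L => good L p)).card : ℝ) ^ k =
      ∑ h ∈ Fintype.piFinset (fun _ : Fin k => H), ((A.filter (fun p => ∀ i, good (h i) p)).card : ℝ) := by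
  have h1 : ∀ p, ((H.filter (fun L => good L p)).card : ℝ) ^ k =
      (((Fintype.piFinset (fun _ : Fin k => H)).filter (fun h => ∀ i, good (h i) p)).card : ℝ) := by
    intro p
    have h2 : (Fintype.piFinset (fun _ : Fin k => H)).filter (fun h => ∀ i, good (h i) p) =
        Fintype.piFinset (fun _ : Fin k => H.filter (fun L => good L p)) := by
      ext h
      simp only [mem_filter, Fintype.mem_piFinset]
      exact ⟨fun h3 i => ⟨h3.1 i, h3.2 i⟩, fun h3 => ⟨fun i => (h3 i).1, fun i => (h3 i).2⟩⟩
    rw [h2, Fintype.card_piFinset, prod_const, card_univ, Fintype.card_fin]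
    push_cast
    rfl
  rw [sum_congr rfl fun p _ => h1 p]
  simp only [card_filter, Nat.cast_sum, Nat.cast_ite, Nat.cast_one, Nat.cast_zero]
  rw [sum_comm]

open Classical in
/-- many good tuples -/
theorem many_tuples {ι : Type} (good : ι → ℕ → Prop) (A : Finset ℕ) (H : Finset ι) (c : ℝ) (hc : 0 < c)
    (k : ℕ) (hk : 1 ≤ k) (hK : 4 * k ^ 2 / c ^ k ≤ (H.card : ℝ)) (hA : 0 < A.card)
    (h : c * (A.card * H.card) ≤ (((A ×ˢ H).filter (fun z => good z.2 z.1)).card : ℝ)) :
    (c / 4) ^ k * (H.card : ℝ) ^ k ≤ (((Fintype.piFinset (fun _ : Fin k => H)).filter (fun h =>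
      Function.Injective h ∧ (c / 4) ^ k * A.card ≤
        ((A.filter (fun p => ∀ i, good (h i) p)).card : ℝ))).card : ℝ) := by
  have hA' : (0 : ℝ) < A.card := by exact_mod_cast hA
  have hck : 0 < c ^ k := by positivity
  have hk' : (1 : ℝ) ≤ k := by exact_mod_cast hk
  have hHpos : (0 : ℝ) < H.card := lt_of_lt_of_le (by positivity) hK
  set N : ℕ → ℝ := fun p => ((H.filter (fun L => good L p)).card : ℝ) with hN
  set M : (Fin k → ι) → ℝ := fun h => ((A.filter (fun p => ∀ i, good (h i) p)).card : ℝ) with hM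
  have hcount : (((A ×ˢ H).filter (fun z => good z.2 z.1)).card : ℝ) = ∑ p ∈ A, N p := by
    rw [hN, ← Nat.cast_sum]
    congr 1
    rw [card_filter, sum_product]
    exact sum_congr rfl fun p _ => by rw [card_filter]
  rw [hcount] at h
  -- power mean
  have hpm : c ^ k * (A.card * (H.card : ℝ) ^ k) ≤ ∑ p ∈ A, N p ^ k := by
    obtain ⟨n, rfl⟩ : ∃ n, k = n + 1 := ⟨k - 1, by omega⟩
    have h2 : (∑ p ∈ A, N p) ^ (n + 1) / (A.card : ℝ) ^ n ≤ ∑ p ∈ A, N p ^ (n + 1) :=
      pow_sum_div_card_le_sum_pow (s := A) (f := N) (fun p _ => Nat.cast_nonneg _) n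
    refine le_trans ?_ h2
    rw [le_div_iff₀ (by positivity)]
    calc c ^ (n + 1) * (A.card * (H.card : ℝ) ^ (n + 1)) * (A.card : ℝ) ^ n
        = (c * (A.card * H.card)) ^ (n + 1) := by ring
      _ ≤ (∑ p ∈ A, N p) ^ (n + 1) := pow_le_pow_left₀ (by positivity) h _
  rw [hN] at hpm
  rw [sum_pow good A H k] at hpm
  -- split the tuples
  set P := Fintype.piFinset (fun _ : Fin k => H) with hP
  set G := P.filter (fun h => Function.Injective h ∧ (c / 4) ^ k * A.card ≤ M h) with hG
  have hPc : (P.card : ℝ) = (H.card : ℝ) ^ k := by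
    rw [hP, Fintype.card_piFinset, prod_const, card_univ, Fintype.card_fin]
    push_cast
    rfl
  have hM1 : ∀ h, M h ≤ A.card := fun h => Nat.cast_le.mpr (card_filter_le _ _)
  have hM0 : ∀ h, 0 ≤ M h := fun h => Nat.cast_nonneg _
  have hni : ((P.filter (fun h => ¬ Function.Injective h)).card : ℝ) ≤ c ^ k / 4 * (H.card : ℝ) ^ k := by
    have h1 : ((P.filter (fun h => ¬ Function.Injective h)).card : ℝ) * H.card ≤
        (k : ℝ) ^ 2 * (H.card : ℝ) ^ k := by exact_mod_cast card_noninj k H
    rw [div_le_iff₀ hck] at hK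
    have h2 : ((P.filter (fun h => ¬ Function.Injective h)).card : ℝ) * H.card ≤
        c ^ k / 4 * (H.card : ℝ) ^ k * H.card := by
      refine h1.trans ?_
      have h3 : (0 : ℝ) ≤ (H.card : ℝ) ^ k := by positivity
      nlinarith
    exact le_of_mul_le_mul_right h2 hHpos
  have hsplit : ∀ h ∈ P, M h ≤ (if Function.Injective h ∧ (c / 4) ^ k * A.card ≤ M h then (A.card : ℝ) else 0) +
      (if ¬ Function.Injective h then (A.card : ℝ) else 0) + c ^ k / 4 * A.card := by
    intro h _
    have h0 : (0 : ℝ) ≤ c ^ k / 4 * A.card := by positivity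
    by_cases hi : Function.Injective h
    · by_cases hm : (c / 4) ^ k * A.card ≤ M h
      · rw [if_pos ⟨hi, hm⟩, if_neg (not_not.mpr hi)]
        linarith [hM1 h]
      · rw [if_neg (fun h => hm h.2), if_neg (not_not.mpr hi)]
        push Not at hm
        have h4 : (c / 4) ^ k ≤ c ^ k / 4 := by
          rw [div_pow]
          apply div_le_div_of_nonneg_left hck.le (by norm_num)
          calc (4 : ℝ) = 4 ^ 1 := by norm_num
            _ ≤ 4 ^ k := pow_le_pow_right₀ (by norm_num) hk
        have h5 : (c / 4) ^ k * A.card ≤ c ^ k / 4 * A.card := mul_le_mul_of_nonneg_right h4 hA'.le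
        linarith
    · rw [if_neg (fun h => hi h.1), if_pos hi]
      linarith [hM1 h]
  have hsum := hpm.trans (sum_le_sum hsplit)
  rw [sum_add_distrib, sum_add_distrib, ← sum_filter, ← sum_filter, sum_const, sum_const, sum_const,
    nsmul_eq_mul, nsmul_eq_mul, nsmul_eq_mul, hPc] at hsum
  have h6 : c ^ k / 2 * (H.card : ℝ) ^ k * A.card ≤ G.card * A.card := by
    have h7 := mul_le_mul_of_nonneg_right hni hA'.le
    have h8 : ((P.filter (fun h => Function.Injective h ∧ (c / 4) ^ k * A.card ≤ M h)).card : ℝ) = G.card := rfl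
    rw [h8] at hsum
    linarith
  have h9 : c ^ k / 2 * (H.card : ℝ) ^ k ≤ G.card := le_of_mul_le_mul_right h6 hA'
  refine le_trans ?_ h9
  apply mul_le_mul_of_nonneg_right _ (by positivity)
  rw [div_pow]
  apply div_le_div_of_nonneg_left hck.le (by norm_num)
  calc (2 : ℝ) ≤ 4 ^ 1 := by norm_num
    _ ≤ 4 ^ k := pow_le_pow_right₀ (by norm_num) hk

end Pool.Agent.Y880.AP
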